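import Pool.Agent.helper42.NS.Spec

namespace Pool.Agent.helper42.NS

open Polynomial Matrix

theorem DT2_pow {t : ℕ} (H : Matrix (Fin t) (Fin t) ℤ) (hH : IsGr H) (b : Fin t → Bool) :
    ∀ (l : ℕ) (j : Fin t), 0 ≤ ((H ^ l).mulVec (ind b)) j ∧
      ((H ^ l).mulVec (ind b)) j ≤ (t : ℤ) ^ l := by
  intro l
  induction l with
  | zero =>
    intro j
    simp only [pow_zero, Matrix.one_mulVec, ind]
    split_ifs <;> simp
  | succ n ih =>
    intro j
    have e : (H ^ (n + 1)).mulVec (ind b) = H.mulVec ((H ^ n).mulVec (ind b)) := by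
      rw [Matrix.mulVec_mulVec, pow_succ']
    rw [e]
    have e2 : (H.mulVec ((H ^ n).mulVec (ind b))) j =
        ∑ i, H j i * ((H ^ n).mulVec (ind b)) i := rfl
    rw [e2]
    constructor
    · apply Finset.sum_nonneg
      intro i _
      rcases hH.1 j i with h | h
      · rw [h]; simp
      · rw [h, one_mul]; exact (ih i).1
    · calc ∑ i, H j i * ((H ^ n).mulVec (ind b)) i ≤ ∑ _i : Fin t, (t : ℤ) ^ n := by
            apply Finset.sum_le_sum
            intro i _
            rcases hH.1 j i with h | h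
            · rw [h, zero_mul]; positivity
            · rw [h, one_mul]; exact (ih i).2
        _ = (t : ℤ) ^ (n + 1) := by
            rw [Finset.sum_const, Finset.card_univ, Fintype.card_fin, nsmul_eq_mul, pow_succ']

theorem DT2 : DT2_stmt := by
  intro t k L H B l c hH ht hl
  have h0 : ∀ a j, |(Matrix.of fun a j => ((H ^ l a).mulVec (ind (B (c a)))) j) a j| ≤
      ((2 : ℤ) ^ L) ^ t := by
    intro a j
    have h1 := DT2_pow H hH (B (c a)) (l a) j
    rw [Matrix.of_apply, abs_of_nonneg h1.1]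
    have h2 : (t : ℤ) ≤ 2 ^ L := by exact_mod_cast ht
    calc ((H ^ l a).mulVec (ind (B (c a)))) j ≤ (t : ℤ) ^ (l a) := h1.2
      _ ≤ ((2 : ℤ) ^ L) ^ (l a) := by
          apply pow_le_pow_left₀ (by positivity) h2
      _ ≤ ((2 : ℤ) ^ L) ^ t := by
          apply pow_le_pow_right₀ _ (hl a).le
          exact one_le_pow₀ (by norm_num)
  have h1 := Matrix.det_le (abv := AbsoluteValue.abs) (x := ((2 : ℤ) ^ L) ^ t)
    (A := Matrix.of fun a j => ((H ^ l a).mulVec (ind (B (c a)))) j) (fun i j => h0 i j)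
  rw [Fintype.card_fin] at h1
  have h2 : ((Nat.factorial t : ℕ) : ℤ) ≤ ((2 : ℤ) ^ L) ^ t := by
    have a1 : Nat.factorial t ≤ t ^ t := Nat.factorial_le_pow t
    have a2 : t ^ t ≤ (2 ^ L) ^ t := Nat.pow_le_pow_left ht t
    exact_mod_cast a1.trans a2
  have h3 : |(Matrix.det (Matrix.of fun a j => ((H ^ l a).mulVec (ind (B (c a)))) j))| ≤
      (2 : ℤ) ^ (L * (t ^ 2 + t)) := by
    refine le_trans h1 ?_
    rw [nsmul_eq_mul]
    calc ((Nat.factorial t : ℕ) : ℤ) * (((2 : ℤ) ^ L) ^ t) ^ t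
        ≤ ((2 : ℤ) ^ L) ^ t * (((2 : ℤ) ^ L) ^ t) ^ t := by
          apply mul_le_mul_of_nonneg_right h2 (by positivity)
      _ = (2 : ℤ) ^ (L * (t ^ 2 + t)) := by
          rw [← pow_mul, ← pow_mul, ← pow_add]
          congr 1
          ring
  zify
  exact h3

end Pool.Agent.helper42.NS
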